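import Pool.Agent.H755R5.Kum.Stmts

set_option autoImplicit false

namespace Pool.Agent.H169R3.Kum

open Pool.Agent.H755R5.Kum
open NumberField Polynomial

section general

variable {E : Type} [Field E] [NumberField E]

/-- abstract form: an ideal that contains `r` and `θ - t` is proper -/
lemma ne_top (θ : 𝓞 E) (f : ℤ[X]) (d : ℤ)
    (H1 : ∀ x : 𝓞 E, ∃ g : ℤ[X], aeval θ g = (d : 𝓞 E) * x)
    (H2 : ∀ h : ℤ[X], aeval θ h = 0 → f ∣ h) (r : ℕ) (hrd : ¬ (r : ℤ) ∣ d) (k : ℤ)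
    (hk : (r : ℤ) ∣ f.eval k) :
    Ideal.span ({(r : 𝓞 E), θ - (k : 𝓞 E)} : Set (𝓞 E)) ≠ ⊤ := by
  intro htop
  have h1 : (1 : 𝓞 E) ∈ Ideal.span ({(r : 𝓞 E), θ - (k : 𝓞 E)} : Set (𝓞 E)) := by
    rw [htop]; trivial
  obtain ⟨a, b, hab⟩ := Ideal.mem_span_pair.1 h1
  obtain ⟨A, hA⟩ := H1 a
  obtain ⟨B, hB⟩ := H1 b
  have h0 : aeval θ (C d - A * C (r : ℤ) - B * (X - C k)) = 0 := by
    simp only [map_sub, map_mul, aeval_C, aeval_X, hA, hB]
    simp only [eq_intCast, Int.cast_natCast]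
    linear_combination (-(d : 𝓞 E)) * hab
  obtain ⟨c, hc⟩ := H2 _ h0
  have h3 := congrArg (Polynomial.eval k) hc
  simp only [eval_sub, eval_mul, eval_C, eval_X, sub_self, mul_zero, sub_zero] at h3
  apply hrd
  have : d = f.eval k * c.eval k + A.eval k * r := by linarith
  rw [this]
  exact dvd_add (Dvd.dvd.mul_right hk _) (Dvd.intro_left _ rfl)

lemma exists_ideal (θ : 𝓞 E) (f : ℤ[X]) (d : ℤ)
    (H1 : ∀ x : 𝓞 E, ∃ g : ℤ[X], aeval θ g = (d : 𝓞 E) * x)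
    (H2 : ∀ h : ℤ[X], aeval θ h = 0 → f ∣ h) (r : ℕ) (hr : r.Prime) (hrd : ¬ (r : ℤ) ∣ d) (k : ℤ)
    (hk : (r : ℤ) ∣ f.eval k) :
    ∃ P : Ideal (𝓞 E), P.IsMaximal ∧ Ideal.absNorm P = r ∧ θ - (k : 𝓞 E) ∈ P ∧
      ∀ j : ℤ, (j : 𝓞 E) ∈ P → (r : ℤ) ∣ j := by
  obtain ⟨P, hP, hle⟩ := Ideal.exists_le_maximal _ (ne_top θ f d H1 H2 r hrd k hk)
  have hrP : (r : 𝓞 E) ∈ P := hle (Ideal.subset_span (by simp))
  have hθP : θ - (k : 𝓞 E) ∈ P := hle (Ideal.subset_span (by simp))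
  have hint : ∀ j : ℤ, (j : 𝓞 E) ∈ P → (r : ℤ) ∣ j := by
    intro j hj
    by_contra hcon
    have hcop : IsCoprime (r : ℤ) j :=
      (Int.prime_iff_natAbs_prime.2 (by simpa using hr)).coprime_iff_not_dvd.2 hcon
    obtain ⟨u, v, huv⟩ := hcop
    apply hP.ne_top
    rw [Ideal.eq_top_iff_one]
    have : (1 : 𝓞 E) = (u : 𝓞 E) * r + v * j := by
      have := congrArg (fun z : ℤ => (z : 𝓞 E)) huv
      push_cast at this
      exact this.symm
    rw [this]
    exact P.add_mem (P.mul_mem_left _ hrP) (P.mul_mem_left _ hj)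
  refine ⟨P, hP, ?_, hθP, hint⟩
  -- the residue field
  have hsurj : Function.Surjective ((Ideal.Quotient.mk P).comp (Int.castRingHom (𝓞 E))) := by
    intro y
    obtain ⟨x, rfl⟩ := Ideal.Quotient.mk_surjective y
    obtain ⟨g, hg⟩ := H1 x
    have hcop : IsCoprime (r : ℤ) d :=
      (Int.prime_iff_natAbs_prime.2 (by simpa using hr)).coprime_iff_not_dvd.2 hrd
    obtain ⟨u, v, huv⟩ := hcop
    refine ⟨v * g.eval k, ?_⟩
    change Ideal.Quotient.mk P (((v * g.eval k : ℤ)) : 𝓞 E) = Ideal.Quotient.mk P x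
    rw [eq_comm, ← sub_eq_zero, ← map_sub, Ideal.Quotient.eq_zero_iff_mem]
    have h1 : aeval θ g - ((g.eval k : ℤ) : 𝓞 E) ∈ P := by
      have h2 : θ - (k : 𝓞 E) ∣ (g.map (Int.castRingHom (𝓞 E))).eval θ -
          (g.map (Int.castRingHom (𝓞 E))).eval (k : 𝓞 E) := Polynomial.sub_dvd_eval_sub _ _ _
      have h3 : (g.map (Int.castRingHom (𝓞 E))).eval θ = aeval θ g := by
        rw [eval_map, aeval_def]
        congr 1
      have h4 : (g.map (Int.castRingHom (𝓞 E))).eval (k : 𝓞 E) = ((g.eval k : ℤ) : 𝓞 E) := by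
        have := Polynomial.eval_map_apply (Int.castRingHom (𝓞 E)) (p := g) k
        simpa using this
      rw [h3, h4] at h2
      obtain ⟨c, hc⟩ := h2
      rw [hc]
      exact P.mul_mem_right _ hθP
    have h5 : x - ((v * g.eval k : ℤ) : 𝓞 E) =
        (v : 𝓞 E) * (aeval θ g - ((g.eval k : ℤ) : 𝓞 E)) + (u : 𝓞 E) * x * r := by
      have := congrArg (fun z : ℤ => (z : 𝓞 E)) huv
      push_cast at this ⊢
      rw [hg]
      linear_combination (-x) * this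
    rw [h5]
    exact P.add_mem (P.mul_mem_left _ h1) (P.mul_mem_left _ hrP)
  have hker : RingHom.ker ((Ideal.Quotient.mk P).comp (Int.castRingHom (𝓞 E))) =
      Ideal.span {(r : ℤ)} := by
    ext j
    rw [RingHom.mem_ker, Ideal.mem_span_singleton]
    change Ideal.Quotient.mk P (j : 𝓞 E) = 0 ↔ _
    rw [Ideal.Quotient.eq_zero_iff_mem]
    refine ⟨hint j, ?_⟩
    rintro ⟨c, rfl⟩
    push_cast
    exact P.mul_mem_right _ hrP
  have e1 := RingHom.quotientKerEquivOfSurjective hsurj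
  have e2 := (Int.quotientSpanNatEquivZMod r).symm.trans
    ((Ideal.quotEquivOfEq hker).symm.trans e1)
  rw [Ideal.absNorm_apply, Submodule.cardQuot_apply]
  have := Nat.card_congr e2.toEquiv
  rw [← this, Nat.card_zmod]

end general

lemma not_pow (q η : ℕ) (hq : q.Prime) (h : ¬ ∃ t : ℕ, t ^ q = η) (b : ℚ) :
    b ^ q ≠ (η : ℚ) := by
  intro hb
  have hint : IsIntegral ℤ b := by
    refine ⟨X ^ q - C (η : ℤ), monic_X_pow_sub_C _ hq.ne_zero, ?_⟩
    simp [hb]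
  obtain ⟨z, hz⟩ := IsIntegrallyClosed.isIntegral_iff.1 hint
  apply h
  refine ⟨z.natAbs, ?_⟩
  have h1 : (z : ℚ) ^ q = (η : ℚ) := by rw [← hb, ← hz]; simp
  have h2 : z ^ q = (η : ℤ) := by exact_mod_cast h1
  have := congrArg Int.natAbs h2
  rw [Int.natAbs_pow] at this
  simpa using this

theorem taskC : TaskC := by
  intro q η hq hη hno
  set f : ℚ[X] := X ^ q - C (η : ℚ) with hf
  have hirr : Irreducible f := X_pow_sub_C_irreducible_of_prime hq (not_pow q η hq hno)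
  haveI : Fact (Irreducible f) := ⟨hirr⟩
  let B : PowerBasis ℚ (AdjoinRoot f) := AdjoinRoot.powerBasis hirr.ne_zero
  haveI : FiniteDimensional ℚ (AdjoinRoot f) := B.finite
  haveI : CharZero (AdjoinRoot f) := charZero_of_injective_algebraMap (algebraMap ℚ _).injective
  haveI : NumberField (AdjoinRoot f) := { to_charZero := inferInstance, to_finiteDimensional := inferInstance }
  have hfmap : (X ^ q - C (η : ℤ) : ℤ[X]).map (Int.castRingHom ℚ) = f := by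
    simp [hf]
  have hroot : IsIntegral ℤ (AdjoinRoot.root f) := by
    refine ⟨X ^ q - C (η : ℤ), monic_X_pow_sub_C _ hq.ne_zero, ?_⟩
    have h1 : (AdjoinRoot.root f) ^ q - (η : AdjoinRoot f) = 0 := by
      have := AdjoinRoot.eval₂_root f
      simpa [hf] using this
    simpa using h1
  let θ : 𝓞 (AdjoinRoot f) := ⟨AdjoinRoot.root f, hroot⟩
  have hBgen : B.gen = AdjoinRoot.root f := rfl
  -- the discriminant
  have hDint : IsIntegral ℤ (Algebra.discr ℚ B.basis) := by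
    refine Algebra.discr_isIntegral ℚ fun i => ?_
    rw [B.basis_eq_pow, hBgen]
    exact hroot.pow _
  obtain ⟨d, hd⟩ := IsIntegrallyClosed.isIntegral_iff.1 hDint
  have hd0 : d ≠ 0 := by
    rintro rfl
    exact Algebra.discr_not_zero_of_basis ℚ B.basis (by rw [← hd]; simp)
  have haev : ∀ g : ℤ[X], ((aeval θ g : 𝓞 (AdjoinRoot f)) : AdjoinRoot f) =
      aeval (AdjoinRoot.root f) g := by
    intro g
    have := Polynomial.aeval_algebraMap_apply (AdjoinRoot f) θ g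
    exact this.symm
  have H1 : ∀ x : 𝓞 (AdjoinRoot f), ∃ g : ℤ[X], aeval θ g = (d : 𝓞 (AdjoinRoot f)) * x := by
    intro x
    have h1 := Algebra.discr_mul_isIntegral_mem_adjoin (R := ℤ) (K := ℚ) (B := B)
      (by rw [hBgen]; exact hroot) (NumberField.RingOfIntegers.isIntegral_coe x)
    rw [hBgen, Algebra.adjoin_singleton_eq_range_aeval] at h1
    obtain ⟨g, hg⟩ := h1
    refine ⟨g, ?_⟩
    apply NumberField.RingOfIntegers.coe_injective
    have h2 : aeval (AdjoinRoot.root f) g = Algebra.discr ℚ B.basis • (x : AdjoinRoot f) := hg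
    change ((aeval θ g : 𝓞 (AdjoinRoot f)) : AdjoinRoot f) = _
    rw [haev, h2, ← hd, Algebra.smul_def]
    simp
  have H2 : ∀ h : ℤ[X], aeval θ h = 0 → (X ^ q - C (η : ℤ) : ℤ[X]) ∣ h := by
    intro h hh
    have h1 : aeval (AdjoinRoot.root f) h = 0 := by
      rw [← haev, hh]; simp
    have h2 : AdjoinRoot.mk f (h.map (Int.castRingHom ℚ)) = 0 := by
      rw [← AdjoinRoot.aeval_eq]
      have := Polynomial.aeval_map_algebraMap ℚ (AdjoinRoot.root f) h
      rw [← h1, ← this]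
      rfl
    rw [AdjoinRoot.mk_eq_zero, ← hfmap] at h2
    exact (Polynomial.map_dvd_map _ Int.cast_injective
      (monic_X_pow_sub_C _ hq.ne_zero)).1 h2
  classical
  let Pr : (r : ℕ) → ZMod r → Ideal (𝓞 (AdjoinRoot f)) := fun r t =>
    if hc : ∃ P : Ideal (𝓞 (AdjoinRoot f)), P.IsMaximal ∧ Ideal.absNorm P = r ∧
      θ - ((t.val : ℤ) : 𝓞 (AdjoinRoot f)) ∈ P ∧ ∀ j : ℤ, (j : 𝓞 (AdjoinRoot f)) ∈ P → (r : ℤ) ∣ j
    then hc.choose else ⊤
  have hPr : ∀ r : ℕ, r.Prime → ¬ r ∣ d.natAbs → ∀ t : ZMod r, t ^ q = (η : ZMod r) →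
      (Pr r t).IsMaximal ∧ Ideal.absNorm (Pr r t) = r ∧
      θ - ((t.val : ℤ) : 𝓞 (AdjoinRoot f)) ∈ Pr r t ∧
      ∀ j : ℤ, (j : 𝓞 (AdjoinRoot f)) ∈ Pr r t → (r : ℤ) ∣ j := by
    intro r hr hrd t ht
    haveI : NeZero r := ⟨hr.ne_zero⟩
    have hrd' : ¬ (r : ℤ) ∣ d := by
      intro hcon
      exact hrd (Int.natCast_dvd.1 hcon)
    have hk : (r : ℤ) ∣ (X ^ q - C (η : ℤ) : ℤ[X]).eval (t.val : ℤ) := by
      rw [← ZMod.intCast_zmod_eq_zero_iff_dvd]
      simp [ht]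
    have hc := exists_ideal θ (X ^ q - C (η : ℤ)) d H1 H2 r hr hrd' (t.val : ℤ) hk
    have : Pr r t = hc.choose := dif_pos hc
    rw [this]
    exact hc.choose_spec
  refine ⟨AdjoinRoot f, inferInstance, inferInstance, d.natAbs, Pr,
    Int.natAbs_pos.2 hd0, fun r hr hrd t ht => ?_⟩
  haveI : NeZero r := ⟨hr.ne_zero⟩
  obtain ⟨h1, h2, h3, h4⟩ := hPr r hr hrd t ht
  refine ⟨h1, h2, fun t' ht' heq => ?_⟩
  obtain ⟨-, -, h3', -⟩ := hPr r hr hrd t' ht'
  rw [← heq] at h3'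
  have h5 : (((t.val : ℤ) - (t'.val : ℤ) : ℤ) : 𝓞 (AdjoinRoot f)) ∈ Pr r t := by
    have := (Pr r t).sub_mem h3' h3
    push_cast at this ⊢
    convert this using 1
    ring
  have h6 := h4 _ h5
  rw [← ZMod.intCast_zmod_eq_zero_iff_dvd] at h6
  push_cast at h6
  rw [ZMod.natCast_zmod_val, ZMod.natCast_zmod_val] at h6
  exact sub_eq_zero.1 h6

end Pool.Agent.H169R3.Kum
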